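import Mathlib

set_option autoImplicit false

namespace Pool.Agent.W491.BQN

theorem part1 {A B : Type} [CommRing A] [CommRing B] (ψ : A →+* B) (M : Submonoid A)
    (hk : ∀ a, ψ a = 0 → ∃ m ∈ M, m * a = 0) (hs : ∀ b, ∃ m ∈ M, ∃ a, ψ m * b = ψ a)
    (q' : Ideal B) [q'.IsPrime] (hM : ∀ m ∈ M, ψ m ∉ q') :
    Nonempty (Localization.AtPrime q' ≃+* Localization.AtPrime (q'.comap ψ)) := by
  letI : Algebra A (Localization.AtPrime q') :=
    ((algebraMap B (Localization.AtPrime q')).comp ψ).toAlgebra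
  have halg : ∀ a : A, algebraMap A (Localization.AtPrime q') a
      = algebraMap B (Localization.AtPrime q') (ψ a) := fun a => rfl
  haveI : IsLocalization (q'.comap ψ).primeCompl (Localization.AtPrime q') := by
    refine ⟨⟨?_, ?_, ?_⟩⟩
    · rintro ⟨s, hs'⟩
      have h : ψ s ∈ q'.primeCompl := hs'
      exact IsLocalization.map_units (Localization.AtPrime q') (⟨ψ s, h⟩ : q'.primeCompl)
    · intro z
      obtain ⟨⟨b, s, hs'⟩, hz⟩ := IsLocalization.surj q'.primeCompl z
      obtain ⟨m, hm, a, ha⟩ := hs b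
      obtain ⟨m', hm', s', hs2⟩ := hs s
      have hx : ψ (m * s') ∉ q' := by
        rw [map_mul, ← hs2]
        intro h
        rcases (Ideal.IsPrime.mem_or_mem ‹q'.IsPrime› h) with h | h
        · exact hM m hm h
        · rcases (Ideal.IsPrime.mem_or_mem ‹q'.IsPrime› h) with h | h
          · exact hM m' hm' h
          · exact hs' h
      refine ⟨(a * m', ⟨m * s', hx⟩), ?_⟩
      show z * algebraMap B _ (ψ (m * s')) = algebraMap B _ (ψ (a * m'))
      simp only at hz
      rw [map_mul ψ, map_mul ψ, ← hs2, ← ha]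
      simp only [map_mul]
      linear_combination (algebraMap B (Localization.AtPrime q') (ψ m)
        * algebraMap B (Localization.AtPrime q') (ψ m')) * hz
    · intro x y hxy
      rw [halg, halg] at hxy
      obtain ⟨⟨s, hs'⟩, h⟩ := IsLocalization.exists_of_eq (M := q'.primeCompl) hxy
      simp only at h
      obtain ⟨m', hm', s', hs2⟩ := hs s
      have h0 : ψ (s' * (x - y)) = 0 := by
        rw [map_mul, map_sub, ← hs2]
        linear_combination (ψ m') * h
      obtain ⟨m, hm, h1⟩ := hk _ h0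
      have hx : ψ (m * s') ∉ q' := by
        rw [map_mul, ← hs2]
        intro h
        rcases (Ideal.IsPrime.mem_or_mem ‹q'.IsPrime› h) with h | h
        · exact hM m hm h
        · rcases (Ideal.IsPrime.mem_or_mem ‹q'.IsPrime› h) with h | h
          · exact hM m' hm' h
          · exact hs' h
      refine ⟨⟨m * s', hx⟩, ?_⟩
      show m * s' * x = m * s' * y
      linear_combination h1
  exact ⟨(IsLocalization.algEquiv (q'.comap ψ).primeCompl (Localization.AtPrime q')
    (Localization.AtPrime (q'.comap ψ))).toRingEquiv⟩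

theorem part2 {A B : Type} [CommRing A] [CommRing B] (ψ : A →+* B) (M : Submonoid A)
    (hk : ∀ a, ψ a = 0 → ∃ m ∈ M, m * a = 0) (hs : ∀ b, ∃ m ∈ M, ∃ a, ψ m * b = ψ a)
    (q : Ideal A) [q.IsPrime] (hM : ∀ m ∈ M, m ∉ q) :
    ∃ (q' : Ideal B) (_ : q'.IsPrime), q = q'.comap ψ := by
  let q' : Ideal B :=
    { carrier := {b | ∃ m ∈ M, ∃ a ∈ q, ψ m * b = ψ a}
      add_mem' := by
        rintro b c ⟨m1, hm1, a1, ha1, h1⟩ ⟨m2, hm2, a2, ha2, h2⟩
        refine ⟨m1 * m2, M.mul_mem hm1 hm2, m2 * a1 + m1 * a2,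
          q.add_mem (q.mul_mem_left _ ha1) (q.mul_mem_left _ ha2), ?_⟩
        simp only [map_mul, map_add]
        linear_combination (ψ m2) * h1 + (ψ m1) * h2
      zero_mem' := ⟨1, M.one_mem, 0, q.zero_mem, by simp⟩
      smul_mem' := by
        rintro c b ⟨m, hm, a, ha, h⟩
        obtain ⟨m2, hm2, a2, h2⟩ := hs c
        refine ⟨m * m2, M.mul_mem hm hm2, a2 * a, q.mul_mem_left _ ha, ?_⟩
        simp only [map_mul, smul_eq_mul]
        linear_combination (ψ m2 * c) * h + (ψ a) * h2 }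
  have hq' : ∀ b, b ∈ q' ↔ ∃ m ∈ M, ∃ a ∈ q, ψ m * b = ψ a := fun b => Iff.rfl
  have hcom : ∀ x, ψ x ∈ q' ↔ x ∈ q := by
    intro x
    rw [hq']
    constructor
    · rintro ⟨m, hm, a, ha, h⟩
      have h0 : ψ (m * x - a) = 0 := by
        rw [map_sub, map_mul, h, sub_self]
      obtain ⟨m2, hm2, h2⟩ := hk _ h0
      have h3 : (m2 * m) * x ∈ q := by
        have : (m2 * m) * x = m2 * a := by linear_combination h2
        rw [this]
        exact q.mul_mem_left _ ha
      rcases (Ideal.IsPrime.mem_or_mem ‹q.IsPrime› h3) with h | h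
      · exact absurd h (hM _ (M.mul_mem hm2 hm))
      · exact h
    · intro hx
      exact ⟨1, M.one_mem, x, hx, by simp⟩
  have hp : q'.IsPrime := by
    refine ⟨?_, ?_⟩
    · intro h
      have h1 : (ψ 1 : B) ∈ q' := by rw [h]; trivial
      rw [hcom] at h1
      exact (Ideal.ne_top_iff_one q).1 (Ideal.IsPrime.ne_top ‹q.IsPrime›) h1
    · intro b c hbc
      obtain ⟨m1, hm1, a1, h1⟩ := hs b
      obtain ⟨m2, hm2, a2, h2⟩ := hs c
      have h3 : ψ (a1 * a2) ∈ q' := by
        have : ψ (a1 * a2) = (ψ m1 * ψ m2) * (b * c) := by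
          rw [map_mul, ← h1, ← h2]; ring
        rw [this]
        exact q'.mul_mem_left _ hbc
      rw [hcom] at h3
      rcases (Ideal.IsPrime.mem_or_mem ‹q.IsPrime› h3) with h | h
      · left; exact ⟨m1, hm1, a1, h, h1⟩
      · right; exact ⟨m2, hm2, a2, h, h2⟩
  refine ⟨q', hp, ?_⟩
  ext x
  rw [Ideal.mem_comap, hcom]

theorem gl (A B : Type) [CommRing A] [CommRing B] (ψ : A →+* B) (M : Submonoid A)
    (hk : ∀ a, ψ a = 0 → ∃ m ∈ M, m * a = 0) (hs : ∀ b, ∃ m ∈ M, ∃ a, ψ m * b = ψ a) :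
    (∀ (q' : Ideal B) [q'.IsPrime], (∀ m ∈ M, ψ m ∉ q') → ∃ (q : Ideal A) (_ : q.IsPrime),
      q = q'.comap ψ ∧ Nonempty (Localization.AtPrime q' ≃+* Localization.AtPrime q)) ∧
    (∀ (q : Ideal A) [q.IsPrime], (∀ m ∈ M, m ∉ q) → ∃ (q' : Ideal B) (_ : q'.IsPrime),
      q = q'.comap ψ ∧ Nonempty (Localization.AtPrime q ≃+* Localization.AtPrime q')) := by
  constructor
  · intro q' _ hM
    exact ⟨q'.comap ψ, inferInstance, rfl, part1 ψ M hk hs q' hM⟩
  · intro q hqp hM
    obtain ⟨q', hp, hq⟩ := part2 ψ M hk hs q hM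
    subst hq
    refine ⟨q', hp, rfl, ?_⟩
    obtain ⟨e⟩ := part1 ψ M hk hs q' (fun m hm h => hM m hm h)
    exact ⟨e.symm⟩

end Pool.Agent.W491.BQN
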