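import Pool.Agent.W394.BQN.Stm2
import Pool.Agent.W491.BQN.GLcore

set_option autoImplicit false

namespace Pool.Agent.W491.BQN

theorem t_GL : Pool.Agent.W394.BQN.S_GL := by
  intro A B _ _ ψ M hk hs
  exact gl A B ψ M hk hs

end Pool.Agent.W491.BQN
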